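import Pool.Agent.KS6_47.Smn.Extra

/-!
# Local seminormal domains whose normalization quotient has exactly the height-one primes as
# associated primes

For every `d` there is a seminormal Noetherian local domain `R` of Krull dimension `d` such that the
associated primes of the `R`-module `Rⁿ / R` are exactly the prime ideals of height one, where the
normalization `Rⁿ` is a Noetherian local factorial ring and `x ^ 2 ∈ R` for all `x ∈ Rⁿ`.

Construction: `A = k[x_1, …, x_d]_{(x)}` with `k = 𝔽_2(t_0, t_1, …)`, and
`R = {a ∈ A | δ a ∈ A}` for a derivation `δ` of the fraction field with `δ² = 0`, `δ t_0 = 1` and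
`δ t_i = 1 / (u_1 ⋯ u_i)`, where the `u_i` are constants of `δ` which represent all the prime
elements of `A` up to units, each one once.
-/

set_option autoImplicit false

namespace Pool.Agent.Results.MP_8f4fb2_ag.LocalExactAssociated

/-- `R` is seminormal, `K` its fraction field: every `x ∈ K` with `x ^ 2 ∈ R` and `x ^ 3 ∈ R` lies
in `R`. -/
def IsSeminormal (R K : Type) [CommRing R] [Field K] [Algebra R K] : Prop :=
  ∀ x : K, x ^ 2 ∈ (algebraMap R K).range → x ^ 3 ∈ (algebraMap R K).range →
    x ∈ (algebraMap R K).range

/-- The `R`-module `Rⁿ / R`, where `Rⁿ` is the integral closure of `R` in `K`. -/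
abbrev NormQuot (R K : Type) [CommRing R] [Field K] [Algebra R K] : Type :=
  (integralClosure R K) ⧸ LinearMap.range (Algebra.linearMap R (integralClosure R K))

/-- `P` is an associated prime of the `R`-module `M`: it is prime and the annihilator of some
`m ∈ M`. -/
def IsAssociated {R : Type} [CommRing R] (P : Ideal R) (M : Type) [AddCommGroup M] [Module R M] :
    Prop :=
  P.IsPrime ∧ ∃ m : M, ∀ r : R, r ∈ P ↔ r • m = 0

/-- For every `d` there is a Noetherian local seminormal domain `R` of Krull dimension `d`, with
fraction field `K`, such that the associated primes of `Rⁿ / R` are exactly the primes of height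
one; moreover `Rⁿ` is a Noetherian local factorial ring and `x ^ 2 ∈ R` for all `x ∈ Rⁿ`. -/
theorem result (d : ℕ) :
    ∃ (R K : Type) (_ : CommRing R) (_ : IsDomain R) (_ : Field K) (_ : Algebra R K)
      (_ : IsFractionRing R K), IsNoetherianRing R ∧ IsLocalRing R ∧
      ringKrullDim R = (d : WithBot ℕ∞) ∧ IsSeminormal R K ∧
      (∀ P : Ideal R, IsAssociated P (NormQuot R K) ↔ P.IsPrime ∧ P.height = 1) ∧
      (∀ x ∈ integralClosure R K, x ^ 2 ∈ (algebraMap R K).range) ∧
      IsNoetherianRing (integralClosure R K) ∧ IsLocalRing (integralClosure R K) ∧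
      UniqueFactorizationMonoid (integralClosure R K) := by
  obtain ⟨R, K, i1, i2, i3, i4, i5, h1, h2⟩ := Pool.Agent.KS6_47.Smn.final2 d
  exact ⟨R, K, i1, i2, i3, i4, i5, h2.noeth, h2.isLocal, h1, h2.seminormal, h2.assoc, h2.sq,
    h2.nNoeth, h2.nLocal, h2.nUfd⟩

end Pool.Agent.Results.MP_8f4fb2_ag.LocalExactAssociated
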